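import Pool.Agent.Helper34.CP.Main

set_option autoImplicit false

namespace Pool.Agent.Results.MP_36eb6d_co.MadBound

/-- If every nonempty induced subgraph of `G` has average degree below `k`, then every `m`-fold
correspondence cover of `G` with `m ≥ 1.9 k` and `m ≥ 10 ^ 10` splits into `m` disjoint
correspondence colourings. -/
theorem result :
    ∀ (k m : ℕ), 10 ^ 10 ≤ m → 19 * k ≤ 10 * m →
      ∀ (V : Type) [Fintype V] [DecidableEq V] (G : SimpleGraph V) [DecidableRel G.Adj],
        (∀ S : Finset V, S.Nonempty →
          ((S ×ˢ S).filter (fun p => G.Adj p.1 p.2)).card < k * S.card) →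
        ∀ σ : V → V → Equiv.Perm (Fin m),
          (∀ u v, G.Adj u v → σ v u = (σ u v).symm) →
          ∃ c : Fin m → V → Fin m,
            (∀ v, Function.Injective (fun i => c i v)) ∧
            ∀ i u v, G.Adj u v → c i v ≠ σ u v (c i u) :=
  fun k m hm hk V _ _ G _ hmad σ hσ =>
    Pool.Agent.Helper34.CP.mad_main k m hm hk V G hmad σ hσ

end Pool.Agent.Results.MP_36eb6d_co.MadBound
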