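import Pool.Agent.PKF.Main

set_option autoImplicit false

namespace Pool.Agent.Results.MP_36eb6d_co.MadFive

/-- The question for `k = 5`: if every nonempty induced subgraph of `G` has average degree below
`5`, then every `6`-fold correspondence cover of `G` splits into `6` disjoint correspondence
colourings. -/
theorem result :
    ∀ (V : Type) [Fintype V] [DecidableEq V] (G : SimpleGraph V) [DecidableRel G.Adj],
      (∀ S : Finset V, S.Nonempty →
        ((S ×ˢ S).filter (fun p => G.Adj p.1 p.2)).card < 5 * S.card) →
      ∀ σ : V → V → Equiv.Perm (Fin 6),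
        (∀ u v, G.Adj u v → σ v u = (σ u v).symm) →
        ∃ c : Fin 6 → V → Fin 6,
          (∀ v, Function.Injective (fun i => c i v)) ∧
          ∀ i u v, G.Adj u v → c i v ≠ σ u v (c i u) :=
  fun V _ _ G _ hmad σ hσ => Pool.Agent.PKF.main5 V G hmad σ hσ

end Pool.Agent.Results.MP_36eb6d_co.MadFive
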