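import Pool.Agent.Helper34.AE.Final

set_option autoImplicit false

namespace Pool.Agent.Results.MP_36eb6d_co.SubexpDegree

/-- The asymptotic form of the question for all graphs of subexponential maximum degree: for every
`ε > 0` there are `c > 0` and `m₀` such that, if every nonempty induced subgraph of `G` has average
degree below `k`, if the maximum degree of `G` is at most `exp (c m)`, and if `m ≥ m₀` and
`m ≥ (1 + ε) k`, then every `m`-fold correspondence cover of `G` splits into `m` disjoint
correspondence colourings. -/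
theorem result :
    ∀ ε : ℝ, 0 < ε → ∃ (c : ℝ) (m₀ : ℕ), 0 < c ∧
      ∀ (k Δ m : ℕ), m₀ ≤ m → (1 + ε) * (k : ℝ) ≤ (m : ℝ) → (Δ : ℝ) ≤ Real.exp (c * m) →
      ∀ (V : Type) [Fintype V] [DecidableEq V] (G : SimpleGraph V) [DecidableRel G.Adj],
        (∀ v, G.degree v ≤ Δ) →
        (∀ S : Finset V, S.Nonempty →
          ((S ×ˢ S).filter (fun p => G.Adj p.1 p.2)).card < k * S.card) →
        ∀ σ : V → V → Equiv.Perm (Fin m),
          (∀ u v, G.Adj u v → σ v u = (σ u v).symm) →
          ∃ c : Fin m → V → Fin m,
            (∀ v, Function.Injective (fun i => c i v)) ∧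
            ∀ i u v, G.Adj u v → c i v ≠ σ u v (c i u) :=
  fun ε hε => Pool.Agent.Helper34.AE.subexp_degree ε hε

end Pool.Agent.Results.MP_36eb6d_co.SubexpDegree
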