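import Pool.Agent.PKG.Main

set_option autoImplicit false

namespace Pool.Agent.Results.MP_36eb6d_co.TwoKMinusFour

/-- If `k ≥ 7` and every nonempty induced subgraph of `G` has average degree below `k`, then every
`(2 k - 4)`-fold correspondence cover of `G` splits into `2 k - 4` disjoint correspondence
colourings. -/
theorem result :
    ∀ (k n : ℕ), 7 ≤ k → n + 4 = 2 * k →
      ∀ (V : Type) [Fintype V] [DecidableEq V] (G : SimpleGraph V) [DecidableRel G.Adj],
        (∀ S : Finset V, S.Nonempty →
          ((S ×ˢ S).filter (fun p => G.Adj p.1 p.2)).card < k * S.card) →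
        ∀ σ : V → V → Equiv.Perm (Fin n),
          (∀ u v, G.Adj u v → σ v u = (σ u v).symm) →
          ∃ c : Fin n → V → Fin n,
            (∀ v, Function.Injective (fun i => c i v)) ∧
            ∀ i u v, G.Adj u v → c i v ≠ σ u v (c i u) :=
  fun k n hk hn V _ _ G _ hmad σ hσ => Pool.Agent.PKG.main k n hk hn V G hmad σ hσ

end Pool.Agent.Results.MP_36eb6d_co.TwoKMinusFour
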